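import Pool.Agent.H483S.Near

/-!
# Families with pairwise arithmetic-progression intersections and a (nearly) common element

Let `F` be a family of subsets of `[N]` such that any two different members meet in a non-empty
arithmetic progression. If some element of `[N]` is in all members (or in all but at most three),
then `F` has at most `C(N,2) + 1 + ⌊(N-1)/4⌋` members, and this is attained for every `N ≥ 1`. More
generally, let `r ≥ 1` members not contain `x`, and let these have exactly `k` common elements; then
`|F| ≤ C(N-1,2) + ⌊(N-1)/4⌋ + r + k`, so the same bound holds if `r + k ≤ N`.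

Outline. Translate `x` to `0`. A member `A` through `0` which is not a progression has a pair
`{y, z}` such that the progression generated by `0, y, z` is not contained in `A`; this pair is in
no other member. The progressions through `0` are counted against the pairs which they contain: a
progression `{-i d, ..., j d}` with coprime `i, j ≥ 1` gets the pair of its end points, the one-sided
ones get `{d, j d}`, and those with `gcd(i, j) ≥ 2` are compensated by the pairs `{p d, q d}` with
coprime `2 ≤ p < q` up to one for every `d` with `2 d ≤ x - 1, N - x`, by the inequality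
`#{(i,j) ≤ (I,J) : gcd(i,j) ≥ 2} ≤ 1 + w(I) + w(J)`, `w(J) = #{2 ≤ p < q ≤ J : gcd(p,q) = 1}`.
-/

set_option autoImplicit false

open Finset

namespace Pool.Agent.Results.MP_7a6934_co.CommonElement

/-- a finite arithmetic progression `{a, a + d, ..., a + (l-1) d}` of integers, `d, l ≥ 1` -/
def IsAP (P : Finset ℤ) : Prop :=
  ∃ (a d : ℤ) (l : ℕ), 1 ≤ d ∧ 1 ≤ l ∧ P = (Finset.range l).image (fun i : ℕ => a + i * d)

/-- `F` is a family of subsets of `[N]` such that any two different members meet in a non-empty
arithmetic progression -/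
def Admissible (N : ℕ) (F : Finset (Finset ℤ)) : Prop :=
  (∀ A ∈ F, A ⊆ Icc 1 (N : ℤ)) ∧ ∀ A ∈ F, ∀ B ∈ F, A ≠ B → IsAP (A ∩ B)

/-- the number of members of `F` which do not contain `x` -/
def missing (F : Finset (Finset ℤ)) (x : ℤ) : ℕ := (F.filter (fun A => x ∉ A)).card

/-- the number of elements of `[N]` which are in all the members of `F` that do not contain `x` -/
noncomputable def common (N : ℕ) (F : Finset (Finset ℤ)) (x : ℤ) : ℕ :=
  ((Icc 1 (N : ℤ)).filter (fun u => ∀ A ∈ F, x ∉ A → u ∈ A)).card

/-- The largest admissible family such that some `x ∈ [N]` is missed by at most three members, or by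
`r` members with at most `N - r` common elements, has exactly `C(N,2) + 1 + ⌊(N-1)/4⌋` members, and
this is also the largest size of an admissible family with a common element. The last part is the
general inequality. -/
theorem result (N : ℕ) (hN : 1 ≤ N) :
    IsGreatest {t : ℕ | ∃ F : Finset (Finset ℤ), Admissible N F ∧ (∃ x : ℤ, ∀ A ∈ F, x ∈ A) ∧
      F.card = t} (N.choose 2 + 1 + (N - 1) / 4) ∧
    IsGreatest {t : ℕ | ∃ F : Finset (Finset ℤ), Admissible N F ∧
      (∃ x ∈ Icc 1 (N : ℤ), missing F x ≤ 3 ∨ missing F x + common N F x ≤ N) ∧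
      F.card = t} (N.choose 2 + 1 + (N - 1) / 4) ∧
    ∀ F : Finset (Finset ℤ), Admissible N F → ∀ x ∈ Icc 1 (N : ℤ), 1 ≤ missing F x →
      F.card ≤ (N - 1).choose 2 + (N - 1) / 4 + missing F x + common N F x := by
  have hgen : ∀ F : Finset (Finset ℤ), Admissible N F → ∀ x ∈ Icc 1 (N : ℤ), 1 ≤ missing F x →
      F.card ≤ (N - 1).choose 2 + (N - 1) / 4 + missing F x + common N F x := by
    intro F hF x hx h1
    exact Pool.Agent.H483S.general_le N F hF.1 hF.2 x hx (card_pos.1 h1)
  have hup : ∀ F : Finset (Finset ℤ), Admissible N F →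
      (∃ x ∈ Icc 1 (N : ℤ), missing F x ≤ 3 ∨ missing F x + common N F x ≤ N) →
      F.card ≤ N.choose 2 + 1 + (N - 1) / 4 := by
    rintro F hF ⟨x, hx, h | h⟩
    · exact Pool.Agent.H483S.near_le N F hF.1 hF.2 x hx h
    · rcases Nat.eq_zero_or_pos (missing F x) with h0 | h0
      · exact Pool.Agent.H483S.near_le N F hF.1 hF.2 x hx (by
          have : (F.filter (fun A => x ∉ A)).card = 0 := h0
          omega)
      · have h1 := hgen F hF x hx h0
        have h2 := Pool.Agent.H483S.choose_two_step N hN
        omega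
  have hstar : ∀ F : Finset (Finset ℤ), Admissible N F → (∃ x : ℤ, ∀ A ∈ F, x ∈ A) →
      ∃ x ∈ Icc 1 (N : ℤ), missing F x ≤ 3 ∨ missing F x + common N F x ≤ N := by
    rintro F hF ⟨x, hx⟩
    rcases F.eq_empty_or_nonempty with rfl | ⟨A, hA⟩
    · exact ⟨1, mem_Icc.2 ⟨le_rfl, by exact_mod_cast hN⟩, Or.inl (by simp [missing])⟩
    · refine ⟨x, hF.1 A hA (hx A hA), Or.inl ?_⟩
      have : F.filter (fun A => x ∉ A) = ∅ := by
        rw [filter_eq_empty_iff]
        intro B hB
        simpa using hx B hB
      simp [missing, this]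
  obtain ⟨F, h1, h2, ⟨x, hx⟩, h3⟩ := Pool.Agent.H483S.construction N hN
  have hAd : Admissible N F := ⟨h1, h2⟩
  have hc : F.card = N.choose 2 + 1 + (N - 1) / 4 :=
    le_antisymm (hup F hAd (hstar F hAd ⟨x, hx⟩)) h3
  refine ⟨⟨⟨F, hAd, ⟨x, hx⟩, hc⟩, ?_⟩, ⟨⟨F, hAd, hstar F hAd ⟨x, hx⟩, hc⟩, ?_⟩, hgen⟩
  · rintro t ⟨F', hF', hx', rfl⟩
    exact hup F' hF' (hstar F' hF' hx')
  · rintro t ⟨F', hF', hx', rfl⟩
    exact hup F' hF' hx'

end Pool.Agent.Results.MP_7a6934_co.CommonElement
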